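import Pool.Agent.helper22.FI.SpecA

set_option autoImplicit false

namespace Pool.Agent.FI

open Pool.Agent.helper58.DC Pool.Agent.DI Pool.Agent.GR Pool.Agent.OB

theorem BQA (h1 : CFX_stmt) : BQA_stmt := by
  classical
  intro p M hS G _ _ P hP z w hz hw hzi hwi c hc
  have hcomm : ∀ r ∈ P, r * c = c * r := fun r hr => Subgroup.mem_centralizer_iff.1 hc r hr
  have h2 := h1 p M hS G P hP (fun x => z x * w (x⁻¹ * c)) (fun x => (hzi x).mul hS (hwi _)) (by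
    intro r hr x
    show z (r * x * r⁻¹) * w ((r * x * r⁻¹)⁻¹ * c) = z x * w (x⁻¹ * c)
    rw [hz r hr]
    have h3 : (r * x * r⁻¹)⁻¹ * c = r * (x⁻¹ * c) * r⁻¹ := by
      have h4 : r⁻¹ * c = c * r⁻¹ := hcomm _ (P.inv_mem hr)
      calc (r * x * r⁻¹)⁻¹ * c = r * x⁻¹ * (r⁻¹ * c) := by group
        _ = r * x⁻¹ * (c * r⁻¹) := by rw [h4]
        _ = r * (x⁻¹ * c) * r⁻¹ := by group
    rw [h3, hw r hr])
  have e1 : ∑ᶠ x ∈ (cz P : Set G), z x * w (x⁻¹ * c) = ∑ᶠ x, rsH (cz P) z x * rsH (cz P) w (x⁻¹ * c) := by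
    apply finsum_congr
    intro x
    by_cases hx : x ∈ cz P
    · have hx' : x⁻¹ * c ∈ cz P := (cz P).mul_mem ((cz P).inv_mem hx) hc
      have hx2 : x ∈ (cz P : Set G) := hx
      rw [finsum_eq_if, if_pos hx2]
      unfold rsH
      rw [if_pos hx, if_pos hx']
    · have hx2 : ¬ x ∈ (cz P : Set G) := hx
      rw [finsum_eq_if, if_neg hx2]
      unfold rsH
      rw [if_neg hx, zero_mul]
  rw [e1] at h2
  exact h2

end Pool.Agent.FI
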