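import Pool.Agent.helper22.FI.SpecA

set_option autoImplicit false

namespace Pool.Agent.FI

open Pool.Agent.helper58.DC Pool.Agent.DI Pool.Agent.GR Pool.Agent.OB

theorem CHD_orth {A : Type} [CommGroup A] [Fintype A] (μ lam : A →* ℂˣ) (h : μ ≠ lam) :
    ∑ u : A, ((μ u : ℂˣ) : ℂ) * ((lam u : ℂˣ) : ℂ)⁻¹ = 0 := by
  have h1 := sum_hom_units_eq_zero (G := A) (R := ℂ) ((Units.coeHom ℂ).comp (μ * lam⁻¹)) (by
    intro h2
    apply h
    ext u
    have h3 := DFunLike.congr_fun h2 u
    have h4 : ((μ u * (lam u)⁻¹ : ℂˣ) : ℂ) = 1 := h3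
    have h5 : μ u * (lam u)⁻¹ = 1 := Units.ext h4
    rw [mul_inv_eq_one.1 h5])
  rw [← h1]
  apply Finset.sum_congr rfl
  intro u _
  show _ = ((μ u * (lam u)⁻¹ : ℂˣ) : ℂ)
  rw [Units.val_mul, Units.val_inv_eq_inv_val]

theorem CHD : CHD_stmt := by
  intro A _ _ X _ l s hl h0 hs
  classical
  haveI := Fintype.ofFinite A
  haveI := Fintype.ofFinite X
  have h0' : ∀ u : A, u ≠ 1 → ∑ x, ((l x u : ℂˣ) : ℂ) * s x = 0 := by
    intro u hu
    rw [← finsum_eq_sum_of_fintype]
    exact h0 u hu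
  -- the key identity
  have key : ∀ lam : A →* ℂˣ, ∑ x, (if l x = lam then (Fintype.card A : ℂ) * s x else 0) = ∑ x, s x := by
    intro lam
    have e1 : ∑ u : A, ((lam u : ℂˣ) : ℂ)⁻¹ * ∑ x, ((l x u : ℂˣ) : ℂ) * s x = ∑ x, s x := by
      rw [Finset.sum_eq_single 1]
      · simp
      · intro u _ hu
        rw [h0' u hu, mul_zero]
      · intro h; exact absurd (Finset.mem_univ _) h
    rw [← e1]
    simp only [Finset.mul_sum]
    rw [Finset.sum_comm]
    apply Finset.sum_congr rfl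
    intro x _
    split_ifs with h
    · have e2 : ∀ u : A, ((lam u : ℂˣ) : ℂ)⁻¹ * (((l x u : ℂˣ) : ℂ) * s x) = s x := by
        intro u
        rw [h, ← mul_assoc, inv_mul_cancel₀ (Units.ne_zero _), one_mul]
      simp only [e2, Finset.sum_const, Finset.card_univ, nsmul_eq_mul]
    · have e3 := CHD_orth (l x) lam h
      have e4 : ∑ u : A, ((lam u : ℂˣ) : ℂ)⁻¹ * (((l x u : ℂˣ) : ℂ) * s x) =
          (∑ u : A, ((l x u : ℂˣ) : ℂ) * ((lam u : ℂˣ) : ℂ)⁻¹) * s x := by
        rw [Finset.sum_mul]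
        apply Finset.sum_congr rfl
        intro u _
        ring
      rw [e4, e3, zero_mul]
  have hcard : (Fintype.card A : ℂ) ≠ 0 := by
    rw [Nat.cast_ne_zero]
    exact Fintype.card_ne_zero
  have hval : ∀ x, (Fintype.card A : ℂ) * s x = ∑ y, s y := by
    intro x
    rw [← key (l x), Finset.sum_eq_single x]
    · rw [if_pos rfl]
    · intro y _ hy
      rw [if_neg]
      intro h; exact hy (hl h)
    · intro h; exact absurd (Finset.mem_univ _) h
  refine ⟨?_, ?_⟩
  · obtain ⟨x0, hx0⟩ := hs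
    have hS : ∑ y, s y ≠ 0 := by
      rw [← hval x0]
      exact mul_ne_zero hcard hx0
    have hsurj : Function.Surjective l := by
      intro lam
      by_contra hc
      push Not at hc
      apply hS
      rw [← key lam]
      apply Finset.sum_eq_zero
      intro x _
      rw [if_neg (hc x)]
    have hb : Nat.card X = Nat.card (A →* ℂˣ) := Nat.card_congr (Equiv.ofBijective l ⟨hl, hsurj⟩)
    haveI : NeZero ((Monoid.exponent A : ℕ) : ℂ) := by
      refine ⟨?_⟩
      rw [Nat.cast_ne_zero]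
      exact Monoid.exponent_ne_zero_of_finite
    rw [hb]
    exact CommGroup.card_monoidHom_of_hasEnoughRootsOfUnity A ℂ
  · intro x y
    have h1 : (Fintype.card A : ℂ) * s x = (Fintype.card A : ℂ) * s y := by rw [hval x, hval y]
    exact mul_left_cancel₀ hcard h1

end Pool.Agent.FI
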