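import Pool.Agent.helper22.FI.SpecA

set_option autoImplicit false

namespace Pool.Agent.FI

open Pool.Agent.helper58.DC Pool.Agent.DI Pool.Agent.GR Pool.Agent.OB

theorem OSM_key {p : ℕ} {M : Ideal (integralClosure ℤ ℂ)} (hS : Setup p M) {G : Type} [Group G] (K : Subgroup G) [Fintype K]
    (f : G → ℂ) (c : ℂ) : ∀ (m : ℕ) (A : Finset G), A.card ≤ m → (∀ a ∈ A, ∀ k ∈ K, a * k ∈ A) →
      (∀ a ∈ A, InM M ((∑ k : K, f (a * k)) / c)) → InM M ((∑ a ∈ A, f a) / c) := by
  classical
  intro m
  induction m with
  | zero =>
    intro A hA _ _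
    have h0 : A = ∅ := Finset.card_eq_zero.1 (Nat.le_zero.1 hA)
    rw [h0, Finset.sum_empty, zero_div]
    exact InM.zero hS
  | succ m ih =>
    intro A hA hK hf
    rcases A.eq_empty_or_nonempty with h0 | ⟨a, ha⟩
    · rw [h0, Finset.sum_empty, zero_div]
      exact InM.zero hS
    · rw [← Finset.sum_filter_add_sum_filter_not A (fun x => a⁻¹ * x ∈ K), add_div]
      refine InM.add hS ?_ ?_
      · have e1 : ∑ x ∈ A.filter (fun x => a⁻¹ * x ∈ K), f x = ∑ k : K, f (a * k) := by
          symm
          refine Finset.sum_bij (fun k _ => a * (k : G)) ?_ ?_ ?_ ?_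
          · intro k _
            rw [Finset.mem_filter]
            refine ⟨hK a ha k k.2, ?_⟩
            rw [inv_mul_cancel_left]
            exact k.2
          · intro k _ k' _ h
            exact Subtype.ext (mul_left_cancel h)
          · intro x hx
            rw [Finset.mem_filter] at hx
            exact ⟨⟨a⁻¹ * x, hx.2⟩, Finset.mem_univ _, mul_inv_cancel_left a x⟩
          · intro k _
            rfl
        rw [e1]
        exact hf a ha
      · apply ih
        · have h1 : (A.filter (fun x => ¬ a⁻¹ * x ∈ K)).card < A.card := by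
            apply Finset.card_lt_card
            refine ⟨Finset.filter_subset _ _, fun h => ?_⟩
            have h2 := h ha
            rw [Finset.mem_filter] at h2
            apply h2.2
            rw [inv_mul_cancel]
            exact K.one_mem
          omega
        · intro x hx k hk
          rw [Finset.mem_filter] at hx ⊢
          refine ⟨hK x hx.1 k hk, fun h => hx.2 ?_⟩
          have h3 := K.mul_mem h (K.inv_mem hk)
          have h4 : a⁻¹ * (x * k) * k⁻¹ = a⁻¹ * x := by group
          rwa [h4] at h3
        · intro x hx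
          rw [Finset.mem_filter] at hx
          exact hf x hx.1

theorem OSM : OSM_stmt := by
  intro p M hS G _ _ C T N hCT hTN hp h hint hC hT
  classical
  haveI := Fintype.ofFinite G
  have hC0 : (Nat.card C : ℂ) ≠ 0 := by
    rw [Nat.cast_ne_zero]
    exact Nat.card_pos.ne'
  have e0 : ∑ᶠ n ∈ (N : Set G), h n = ∑ n ∈ (N : Set G).toFinset, h n := finsum_mem_eq_toFinset_sum _ _
  rw [e0]
  apply OSM_key hS T h (Nat.card C : ℂ) _ _ le_rfl
  · intro a ha k hk
    rw [Set.mem_toFinset] at ha ⊢
    exact N.mul_mem ha (hTN hk)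
  · intro n hn
    rw [Set.mem_toFinset] at hn
    -- the coset `n T`
    have e1 : ∑ k : T, h (n * k) = ∑ x ∈ (T : Set G).toFinset, h (n * x) := by
      refine Finset.sum_bij (fun k _ => (k : G)) ?_ ?_ ?_ ?_
      · intro k _
        rw [Set.mem_toFinset]
        exact k.2
      · intro k _ k' _ h
        exact Subtype.ext h
      · intro x hx
        rw [Set.mem_toFinset] at hx
        exact ⟨⟨x, hx⟩, Finset.mem_univ _, rfl⟩
      · intro k _
        rfl
    rw [e1]
    have h1 := OSM_key hS C (fun x => h (n * x) - h n) (Nat.card C : ℂ) _ (T : Set G).toFinset le_rfl (by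
      intro a ha k hk
      rw [Set.mem_toFinset] at ha ⊢
      exact T.mul_mem ha (hCT hk)) (by
      intro a ha
      rw [Set.mem_toFinset] at ha
      have e2 : ∀ k : C, h (n * (a * k)) - h n = h (n * a) - h n := by
        intro k
        rw [← mul_assoc, hC (n * a) (N.mul_mem hn (hTN ha)) k k.2]
      simp only [e2, Finset.sum_const, Finset.card_univ, nsmul_eq_mul]
      rw [← Nat.card_eq_fintype_card, mul_div_cancel_left₀ _ hC0]
      exact hT n hn a ha)
    have e3 : ∑ x ∈ (T : Set G).toFinset, h (n * x) = ∑ x ∈ (T : Set G).toFinset, (h (n * x) - h n) + (Nat.card T : ℂ) * h n := by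
      rw [Finset.sum_sub_distrib, Finset.sum_const, nsmul_eq_mul, Set.toFinset_card]
      have e4 : (Fintype.card (T : Set G) : ℂ) = (Nat.card T : ℂ) := by
        rw [← Nat.card_eq_fintype_card]
        rfl
      rw [e4]
      ring
    rw [e3, add_div]
    refine InM.add hS h1 ?_
    obtain ⟨k, hk⟩ := hp
    have e5 : Nat.card T = Nat.card C * C.relIndex T := by
      have e7 := Subgroup.relIndex_mul_relIndex ⊥ C T bot_le hCT
      rw [Subgroup.relIndex_bot_left, Subgroup.relIndex_bot_left] at e7
      exact e7.symm
    have e6 : (Nat.card T : ℂ) * h n / (Nat.card C : ℂ) = (p : ℂ) * ((k : ℂ) * h n) := by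
      rw [e5, hk]
      push_cast
      field_simp
    rw [e6]
    have hpM : InM M (p : ℂ) := by
      have h7 := InM.coe hS (a := (p : integralClosure ℤ ℂ)) hS.mem
      simpa using h7
    exact InM.mul_right hS hpM ((IntAt.natCast hS k).mul hS (hint n hn))

end Pool.Agent.FI
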